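import Mathlib

/-!
Parity of the numbers `a_n` of valid hook configurations, defined by
`∑ a_n z^n/n! = -log(1 - F(z))`.
-/

namespace Pool.Agent.Results.MP_773328_co.OddIffPowTwo

open PowerSeries Finset

/-- `F(z) = ∑_k (-1)^k z^(2k+1) / (k! (k+1)! (2k+1))`, as a formal power series over `ℚ`. -/
noncomputable def F : PowerSeries ℚ :=
  PowerSeries.mk fun n => if n % 2 = 1 then
    (-1 : ℚ) ^ (n / 2) / ((n / 2).factorial * (n / 2 + 1).factorial * n) else 0

/-- `a_n = n! [z^n] (-log (1 - F(z)))`; `PowerSeries.logOf` is Mathlib's formal logarithm. -/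
noncomputable def a (n : ℕ) : ℚ :=
  n.factorial * PowerSeries.coeff n (-(PowerSeries.logOf (1 - F)))

/-! ### Elementary parity facts -/

lemma sym_sum_even (g : ℕ → ℤ) (t : ℕ) (hg : ∀ i ≤ 2 * t, g i = g (2 * t - i)) :
    ∑ i ∈ range (2 * t + 1), g i = 2 * ∑ i ∈ range t, g i + g t := by
  have h1 : 2 * t + 1 = (t + 1) + t := by ring
  rw [h1, Finset.sum_range_add, Finset.sum_range_succ]
  have h2 : ∑ x ∈ range t, g (t + 1 + x) = ∑ x ∈ range t, g x := by
    rw [← Finset.sum_range_reflect]
    refine Finset.sum_congr rfl fun x hx => ?_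
    have hx' := Finset.mem_range.1 hx
    rw [hg (t + 1 + (t - 1 - x)) (by omega)]
    congr 1
    omega
  rw [h2]; ring

lemma sym_sum_odd (g : ℕ → ℤ) (t : ℕ) (hg : ∀ i ≤ 2 * t + 1, g i = g (2 * t + 1 - i)) :
    ∑ i ∈ range (2 * t + 2), g i = 2 * ∑ i ∈ range (t + 1), g i := by
  have h1 : 2 * t + 2 = (t + 1) + (t + 1) := by ring
  rw [h1, Finset.sum_range_add]
  have h2 : ∑ x ∈ range (t + 1), g (t + 1 + x) = ∑ x ∈ range (t + 1), g x := by
    rw [← Finset.sum_range_reflect]
    refine Finset.sum_congr rfl fun x hx => ?_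
    have hx' := Finset.mem_range.1 hx
    rw [hg (t + 1 + (t + 1 - 1 - x)) (by omega)]
    congr 1
    omega
  rw [h2]; ring

lemma catalan_sum (k : ℕ) :
    (catalan (k + 1) : ℤ) = ∑ i ∈ range (k + 1), (catalan i : ℤ) * catalan (k - i) := by
  rw [catalan_succ', Finset.Nat.sum_antidiagonal_eq_sum_range_succ_mk]
  push_cast
  rfl

lemma catalan_even (t : ℕ) : Even (catalan (2 * t + 2) : ℤ) := by
  rw [show 2 * t + 2 = (2 * t + 1) + 1 by ring, catalan_sum, sym_sum_odd]
  · exact even_two_mul _
  · intro i hi
    rw [mul_comm]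
    congr 2
    congr 1
    omega

lemma catalan_odd_step (t : ℕ) : Odd (catalan (2 * t + 1) : ℤ) ↔ Odd (catalan t : ℤ) := by
  rw [catalan_sum, sym_sum_even]
  · have h : 2 * t - t = t := by omega
    rw [h, Int.odd_add, Int.odd_mul]
    constructor
    · intro h1
      by_contra h2
      rw [Int.not_odd_iff_even] at h2
      have h3 := (h1.2 (h2.mul_left _))
      rcases h3 with ⟨h3, -⟩
      exact absurd h3 (by decide)
    · intro h1
      constructor
      · rintro ⟨h3, -⟩
        exact absurd h3 (by decide)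
      · intro h3
        rw [Int.even_mul, or_self] at h3
        rw [← Int.not_even_iff_odd] at h1
        exact absurd h3 h1
  · intro i hi
    rw [mul_comm]
    congr 2
    congr 1
    omega

lemma catalan_odd_iff (k : ℕ) : Odd (catalan k : ℤ) ↔ ∃ r, k + 1 = 2 ^ r := by
  induction k using Nat.strong_induction_on with
  | _ k ih =>
    rcases Nat.eq_zero_or_pos k with h0 | h0
    · subst h0
      simp only [catalan_zero]
      exact ⟨fun _ => ⟨0, by norm_num⟩, fun _ => by decide⟩
    · rcases Nat.even_or_odd' k with ⟨t, ht | ht⟩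
      · obtain ⟨s, rfl⟩ : ∃ s, t = s + 1 := ⟨t - 1, by omega⟩
        subst ht
        constructor
        · intro h
          have := catalan_even s
          rw [show 2 * (s + 1) = 2 * s + 2 by ring] at h
          exact absurd this (Int.not_even_iff_odd.2 h)
        · rintro ⟨r, hr⟩
          rcases r with _ | r
          · simp at hr
          · exfalso
            rw [pow_succ] at hr
            omega
      · subst ht
        rw [catalan_odd_step, ih t (by omega)]
        constructor
        · rintro ⟨r, hr⟩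
          exact ⟨r + 1, by rw [pow_succ]; omega⟩
        · rintro ⟨r, hr⟩
          rcases r with _ | r
          · simp at hr
          · exact ⟨r, by rw [pow_succ] at hr; omega⟩

lemma choose_even (m i : ℕ) (hi : i % 2 = 1) : Even (((2 * m).choose i : ℕ) : ℤ) := by
  obtain ⟨j, rfl⟩ : ∃ j, i = j + 1 := ⟨i - 1, by omega⟩
  rcases Nat.eq_zero_or_pos m with h0 | h0
  · subst h0
    simp
  · obtain ⟨n, hn⟩ : ∃ n, 2 * m = n + 1 := ⟨2 * m - 1, by omega⟩
    have h := Nat.add_one_mul_choose_eq n j
    rw [← hn] at h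
    have h2 : Even ((2 * m).choose (j + 1) * (j + 1)) := by
      rw [← h, mul_assoc]
      exact even_two_mul _
    rw [Nat.even_mul] at h2
    rcases h2 with h2 | h2
    · exact_mod_cast h2
    · exfalso
      rw [Nat.even_iff] at h2
      omega

/-! ### Exponential generating functions with integer coefficients -/

/-- integrality of the exponential coefficients -/
def IntE (G : PowerSeries ℚ) : Prop := ∀ n, ∃ m : ℤ, (n.factorial : ℚ) * coeff n G = m

lemma fact_mul_coeff_mul (G H : PowerSeries ℚ) (n : ℕ) :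
    (n.factorial : ℚ) * coeff n (G * H) = ∑ p ∈ antidiagonal n, (n.choose p.1 : ℚ) *
      ((p.1.factorial : ℚ) * coeff p.1 G) * ((p.2.factorial : ℚ) * coeff p.2 H) := by
  rw [PowerSeries.coeff_mul, Finset.mul_sum]
  refine Finset.sum_congr rfl fun p hp => ?_
  have h : p.1 + p.2 = n := Finset.HasAntidiagonal.mem_antidiagonal.1 hp
  have h2 : (n.factorial : ℚ) = n.choose p.1 * p.1.factorial * p.2.factorial := by
    have h3 := Nat.choose_mul_factorial_mul_factorial (show p.1 ≤ n by omega)
    rw [show n - p.1 = p.2 by omega] at h3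
    exact_mod_cast h3.symm
  rw [h2]; ring

lemma IntE.mul {G H : PowerSeries ℚ} (hG : IntE G) (hH : IntE H) : IntE (G * H) := by
  intro n
  choose g hg using hG
  choose h hh using hH
  refine ⟨∑ p ∈ antidiagonal n, (n.choose p.1 : ℤ) * g p.1 * h p.2, ?_⟩
  rw [fact_mul_coeff_mul]
  push_cast
  refine Finset.sum_congr rfl fun p _ => ?_
  rw [hg, hh]

lemma fact_succ_coeff (G : PowerSeries ℚ) (n : ℕ) :
    ((n + 1).factorial : ℚ) * coeff (n + 1) G =
      (n.factorial : ℚ) * coeff n (PowerSeries.derivative ℚ G) := by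
  rw [PowerSeries.coeff_derivative, Nat.factorial_succ]
  push_cast
  ring

lemma IntE.deriv {G : PowerSeries ℚ} (hG : IntE G) : IntE (PowerSeries.derivative ℚ G) := by
  intro n
  rw [← fact_succ_coeff]
  exact hG (n + 1)

lemma IntE.of_deriv {G : PowerSeries ℚ} (h0 : coeff 0 G = 0)
    (hG : IntE (PowerSeries.derivative ℚ G)) : IntE G := by
  intro n
  rcases n with _ | n
  · exact ⟨0, by simp [h0]⟩
  · rw [fact_succ_coeff]
    exact hG n

/-- divided powers `F^j / j!` -/
noncomputable def dp (G : PowerSeries ℚ) (j : ℕ) : PowerSeries ℚ :=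
  PowerSeries.C (1 / (j.factorial : ℚ)) * G ^ j

lemma dp_intE {G : PowerSeries ℚ} (h0 : constantCoeff G = 0) (hG : IntE G) (j : ℕ) :
    IntE (dp G j) := by
  induction j with
  | zero =>
    intro n
    rcases n with _ | n
    · exact ⟨1, by simp [dp]⟩
    · exact ⟨0, by simp [dp, PowerSeries.coeff_one]⟩
  | succ j ih =>
    apply IntE.of_deriv
    · simp [dp, h0]
    · have h : PowerSeries.derivative ℚ (dp G (j + 1)) = dp G j * PowerSeries.derivative ℚ G := by
        unfold dp
        rw [Derivation.leibniz, PowerSeries.derivative_C, PowerSeries.derivative_pow, smul_zero,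
          add_zero, smul_eq_mul, Nat.add_sub_cancel]
        have h1 : ((j + 1 : ℕ) : PowerSeries ℚ) = PowerSeries.C ((j + 1 : ℕ) : ℚ) := by
          simp
        rw [h1, ← mul_assoc, ← mul_assoc, ← map_mul]
        congr 3
        rw [Nat.factorial_succ]
        push_cast
        have h2 : (j.factorial : ℚ) ≠ 0 := by positivity
        have h3 : ((j : ℚ) + 1) ≠ 0 := by positivity
        field_simp
      rw [h]
      exact ih.mul hG.deriv

/-! ### The logarithm -/

lemma coeff_pow_eq_zero {G : PowerSeries ℚ} (h0 : constantCoeff G = 0) {n d : ℕ} (h : n < d) :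
    coeff n (G ^ d) = 0 := by
  have h1 : (X : PowerSeries ℚ) ∣ G := PowerSeries.X_dvd_iff.2 h0
  have h2 : (X : PowerSeries ℚ) ^ d ∣ G ^ d := pow_dvd_pow_of_dvd h1 d
  exact PowerSeries.X_pow_dvd_iff.1 h2 n h

lemma coeff_neg_logOf {G : PowerSeries ℚ} (h0 : constantCoeff G = 0) (n : ℕ) :
    coeff n (-(PowerSeries.logOf (1 - G))) = ∑ d ∈ Icc 1 n, coeff n (G ^ d) / d := by
  have hs : PowerSeries.HasSubst (1 - G - 1) := by
    apply PowerSeries.HasSubst.of_constantCoeff_zero'
    simp [h0]
  rw [map_neg, PowerSeries.logOf_eq, PowerSeries.coeff_subst' hs]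
  have h1 : (1 - G - 1 : PowerSeries ℚ) = -G := by ring
  rw [h1]
  rw [finsum_eq_sum_of_support_subset (s := Icc 1 n), ← Finset.sum_neg_distrib]
  · refine Finset.sum_congr rfl fun d hd => ?_
    have hd1 : d ≠ 0 := by
      have := (Finset.mem_Icc.1 hd).1
      omega
    have h2 : (-G) ^ d = PowerSeries.C ((-1 : ℚ) ^ d) * G ^ d := by
      rw [neg_pow]; simp
    rw [PowerSeries.coeff_log, if_neg hd1, h2, PowerSeries.coeff_C_mul]
    have h3 : (-1 : ℚ) ^ d * (-1) ^ d = 1 := by
      rw [← mul_pow]; norm_num
    simp only [smul_eq_mul, Algebra.algebraMap_self, RingHom.id_apply, pow_succ]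
    field_simp
    linear_combination (coeff n (G ^ d)) * h3
  · intro d hd
    rw [Function.mem_support] at hd
    rw [Finset.coe_Icc, Set.mem_Icc]
    by_contra hc
    apply hd
    rw [not_and_or, not_le, not_le] at hc
    rcases hc with hc | hc
    · have : d = 0 := by omega
      subst this
      simp
    · have h2 : (-G) ^ d = PowerSeries.C ((-1 : ℚ) ^ d) * G ^ d := by
        rw [neg_pow]; simp
      rw [h2, PowerSeries.coeff_C_mul, coeff_pow_eq_zero h0 hc]
      simp

lemma a_eq {G : PowerSeries ℚ} (h0 : constantCoeff G = 0) (n : ℕ) :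
    (n.factorial : ℚ) * coeff n (-(PowerSeries.logOf (1 - G))) =
      ∑ d ∈ Icc 1 n, ((d - 1).factorial : ℚ) * ((n.factorial : ℚ) * coeff n (dp G d)) := by
  rw [coeff_neg_logOf h0, Finset.mul_sum]
  refine Finset.sum_congr rfl fun d hd => ?_
  have hd1 : d ≠ 0 := by
    have := (Finset.mem_Icc.1 hd).1
    omega
  unfold dp
  rw [PowerSeries.coeff_C_mul]
  have h1 : (d.factorial : ℚ) = d * (d - 1).factorial := by
    exact_mod_cast (Nat.mul_factorial_pred hd1).symm
  rw [h1]
  have h2 : ((d - 1).factorial : ℚ) ≠ 0 := by positivity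
  have h3 : (d : ℚ) ≠ 0 := by exact_mod_cast hd1
  field_simp

/-! ### The series `F` -/

/-- the exponential coefficients of `F` -/
def c (n : ℕ) : ℤ := if n % 2 = 1 then (-1) ^ (n / 2) * (catalan (n / 2) : ℤ) else 0

lemma coeff_F (n : ℕ) : (n.factorial : ℚ) * coeff n F = c n := by
  unfold F c
  rw [PowerSeries.coeff_mk]
  split_ifs with h
  · obtain ⟨k, rfl⟩ : ∃ k, n = 2 * k + 1 := ⟨n / 2, by omega⟩
    have hk : (2 * k + 1) / 2 = k := by omega
    rw [hk]
    have h1 : ((k + 1 : ℕ) : ℚ) * catalan k = ((2 * k).choose k : ℕ) := by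
      have := succ_mul_catalan_eq_centralBinom k
      rw [Nat.centralBinom_eq_two_mul_choose] at this
      exact_mod_cast this
    have h2 : ((2 * k).factorial : ℚ) = ((2 * k).choose k : ℕ) * k.factorial * k.factorial := by
      have := Nat.choose_mul_factorial_mul_factorial (show k ≤ 2 * k by omega)
      rw [show 2 * k - k = k by omega] at this
      exact_mod_cast this.symm
    have h3 : (k.factorial : ℚ) ≠ 0 := by positivity
    rw [Nat.factorial_succ, Nat.factorial_succ]
    push_cast at h1 ⊢
    rw [h2]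
    have h4 : ((k : ℚ) + 1) ≠ 0 := by positivity
    have h5 : (2 * (k : ℚ) + 1) ≠ 0 := by positivity
    field_simp
    linear_combination (-h1)
  · simp

lemma F_const : constantCoeff F = 0 := by
  rw [← PowerSeries.coeff_zero_eq_constantCoeff_apply]
  unfold F
  rw [PowerSeries.coeff_mk]
  simp

lemma F_intE : IntE F := fun n => ⟨c n, coeff_F n⟩

/-- the binomial self-convolution of `c` -/
def T (n : ℕ) : ℤ := ∑ i ∈ range (n + 1), (n.choose i : ℤ) * c i * c (n - i)

lemma fact_coeff_dp_two (n : ℕ) : (n.factorial : ℚ) * coeff n (dp F 2) = (T n : ℚ) / 2 := by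
  unfold dp T
  rw [PowerSeries.coeff_C_mul, pow_two]
  have h := fact_mul_coeff_mul F F n
  rw [Finset.Nat.sum_antidiagonal_eq_sum_range_succ_mk] at h
  have h2 : (n.factorial : ℚ) * (1 / ((2 : ℕ).factorial : ℚ) * coeff n (F * F)) =
      ((n.factorial : ℚ) * coeff n (F * F)) / 2 := by
    norm_num [Nat.factorial]
    ring
  rw [h2, h]
  congr 1
  push_cast
  refine Finset.sum_congr rfl fun i _ => ?_
  simp only [coeff_F]

lemma T_odd (t : ℕ) : T (2 * t + 1) = 0 := by
  unfold T
  refine Finset.sum_eq_zero fun i hi => ?_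
  have hi' := Finset.mem_range.1 hi
  by_cases h : i % 2 = 1
  · have : c (2 * t + 1 - i) = 0 := by
      unfold c
      rw [if_neg (by omega)]
    rw [this, mul_zero]
  · have : c i = 0 := by
      unfold c
      rw [if_neg h]
    rw [this, mul_zero, zero_mul]

lemma T_even (m : ℕ) (hm : 2 ≤ m) : (4 : ℤ) ∣ T (2 * m) := by
  unfold T
  rw [sym_sum_even]
  · apply dvd_add
    · have h1 : (2 : ℤ) ∣ ∑ i ∈ range m, ((2 * m).choose i : ℤ) * c i * c (2 * m - i) := by
        refine Finset.dvd_sum fun i _ => ?_
        by_cases h : i % 2 = 1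
        · have := choose_even m i h
          exact ((even_iff_two_dvd.1 this).mul_right _).mul_right _
        · have : c i = 0 := by
            unfold c
            rw [if_neg h]
          rw [this, mul_zero, zero_mul]
          exact dvd_zero _
      obtain ⟨q, hq⟩ := h1
      rw [hq]
      exact ⟨q, by ring⟩
    · rw [show 2 * m - m = m by omega]
      by_cases h : m % 2 = 1
      · have h1 : (((2 * m).choose m : ℕ) : ℤ) = (m + 1) * catalan m := by
          have := succ_mul_catalan_eq_centralBinom m
          rw [Nat.centralBinom_eq_two_mul_choose] at this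
          exact_mod_cast this.symm
        rw [h1, mul_assoc]
        apply Dvd.dvd.mul_right
        rcases (show m % 4 = 3 ∨ m % 4 = 1 by omega) with h2 | h2
        · apply Dvd.dvd.mul_right
          omega
        · have h3 : Even (catalan m : ℤ) := by
            rw [← Int.not_odd_iff_even, catalan_odd_iff]
            rintro ⟨r, hr⟩
            rcases r with _ | _ | r
            · simp at hr; omega
            · simp at hr; omega
            · rw [pow_succ, pow_succ] at hr
              omega
          obtain ⟨q, hq⟩ := even_iff_two_dvd.1 h3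
          obtain ⟨s, hs⟩ : ∃ s : ℤ, (m : ℤ) + 1 = 2 * s := ⟨((m : ℤ) + 1) / 2, by omega⟩
          rw [hq, hs]
          exact ⟨s * q, by ring⟩
      · have : c m = 0 := by
          unfold c
          rw [if_neg h]
        rw [this, mul_zero]
        exact dvd_zero _
  · intro i hi
    have h1 : (2 * m).choose (2 * m - i) = (2 * m).choose i := Nat.choose_symm hi
    have h2 : 2 * m - (2 * m - i) = i := by omega
    rw [h1, h2]
    ring

/-- For every `n ≥ 3`, `a_n` is an integer, and it is odd iff `n + 1` is a power of two. -/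
theorem result : ∀ n : ℕ, 3 ≤ n → ∃ m : ℤ, a n = m ∧ (Odd m ↔ ∃ r : ℕ, n + 1 = 2 ^ r) := by
  intro n hn
  have hI : ∀ d, ∃ z : ℤ, (n.factorial : ℚ) * coeff n (dp F d) = z :=
    fun d => dp_intE F_const F_intE d n
  choose z hz using hI
  have h1 : z 1 = c n := by
    have h := hz 1
    have h2 : dp F 1 = F := by simp [dp]
    rw [h2, coeff_F] at h
    exact_mod_cast h.symm
  have h2 : T n = 2 * z 2 := by
    have h := hz 2
    rw [fact_coeff_dp_two] at h
    have h3 : (T n : ℚ) = 2 * (z 2 : ℚ) := by linarith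
    exact_mod_cast h3
  refine ⟨∑ d ∈ Icc 1 n, ((d - 1).factorial : ℤ) * z d, ?_, ?_⟩
  · unfold a
    rw [a_eq F_const]
    push_cast
    refine Finset.sum_congr rfl fun d _ => ?_
    rw [hz d]
  · have h3 : Icc 1 n = insert 1 (insert 2 (Icc 3 n)) := by
      ext x
      simp only [Finset.mem_Icc, Finset.mem_insert]
      omega
    rw [h3, Finset.sum_insert (by simp), Finset.sum_insert (by simp)]
    have h4 : Even (∑ d ∈ Icc 3 n, ((d - 1).factorial : ℤ) * z d) := by
      rw [even_iff_two_dvd]
      refine Finset.dvd_sum fun d hd => ?_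
      apply Dvd.dvd.mul_right
      have hd' := (Finset.mem_Icc.1 hd).1
      exact_mod_cast Nat.dvd_factorial (by norm_num) (by omega : 2 ≤ d - 1)
    have h5 : Even (((2 - 1 : ℕ).factorial : ℤ) * z 2 +
        ∑ d ∈ Icc 3 n, ((d - 1).factorial : ℤ) * z d) := by
      apply Even.add _ h4
      rcases Nat.even_or_odd' n with ⟨t, ht | ht⟩
      · have h6 := T_even t (by omega)
        rw [← ht, h2] at h6
        have h7 : Even (z 2) := by
          rw [even_iff_two_dvd]
          omega
        exact h7.mul_left _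
      · rw [ht, T_odd] at h2
        have h7 : z 2 = 0 := by omega
        rw [h7]
        simp
    rw [Int.odd_add, iff_true_right h5, h1]
    simp only [Nat.sub_self, Nat.factorial_zero, Nat.cast_one, one_mul]
    unfold c
    rcases Nat.even_or_odd' n with ⟨t, ht | ht⟩
    · rw [if_neg (by omega)]
      constructor
      · intro h
        exact absurd h (by decide)
      · rintro ⟨r, hr⟩
        rcases r with _ | r
        · simp at hr; omega
        · rw [pow_succ] at hr
          omega
    · rw [if_pos (by omega)]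
      have h6 : n / 2 = t := by omega
      rw [h6, Int.odd_mul, catalan_odd_iff]
      have h7 : Odd ((-1 : ℤ) ^ t) := Odd.pow (by decide)
      constructor
      · rintro ⟨-, r, hr⟩
        exact ⟨r + 1, by rw [pow_succ]; omega⟩
      · rintro ⟨r, hr⟩
        refine ⟨h7, ?_⟩
        rcases r with _ | r
        · simp at hr; omega
        · exact ⟨r, by rw [pow_succ] at hr; omega⟩

end Pool.Agent.Results.MP_773328_co.OddIffPowTwo
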